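import Pool.Agent.Lib.MP_b5021c_nt.IfaceOF
import Pool.Agent.Lib.MP_b5021c_nt.SF.H27.Bas

/-!
# Board b5, leaf OF, row OF_BGR: a load of class `P` with a big factor
-/

namespace Pool.Agent.B5.OF.H75

open scoped LaurentPolynomial
open Polynomial Pool.Agent.B5

set_option linter.unusedSectionVars false

/-- An element which depends on `w` has positive rank. -/
theorem rk_pos {O : Type} [CommRing O] {L : Type} [AddCommGroup L] [Module.Free ℤ L]
    [Module.Finite ℤ L] (hRk : RkS) {G : AO O L} (hG : Wdep G) : 1 ≤ rk (supp G) := by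
  obtain ⟨a, ha, b, hb, hab⟩ := hG
  obtain ⟨x, hx, hx0⟩ : ∃ x ∈ supp G, x ≠ 0 := by
    by_cases h0 : a = 0
    · exact ⟨b, hb, fun h => hab (h0.trans h.symm)⟩
    · exact ⟨a, ha, h0⟩
  have h1 : rk ({x} : Set L) = 1 := (hRk L L).2.2.2.2.2.2.1 x hx0
  have h2 : rk ({x} : Set L) ≤ rk (supp G) :=
    (hRk L L).2.1 _ _ (Set.singleton_subset_iff.mpr hx)
  omega

/-- Row OF_BGR. -/
theorem of_bgr_st (hCl : ClpS) (hE1 : E1S) (hG1 : G1pS) (hM : MmulS) (hMV : MVS) (hRk : RkS) :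
    BgrS := by
  classical
  intro P L _ _ _ _ _ phi D S i0 eta h c n G θ' hFP fd hP' hex
  obtain ⟨mm1, mm2, -⟩ := hM ℤ
  obtain ⟨mv1, mv2⟩ := hMV ℤ
  obtain ⟨-, e12⟩ := hE1 ℤ
  obtain ⟨-, hcl⟩ := hCl ℤ P L phi D S i0 eta h c n G hFP fd
  have hG0 : ∀ i, (G i).coeff 0 ≠ 0 := fun i => (fd.st i).1
  have hP2 : ClassP θ' (c * ∏ i, (G i).coeff 0) := by
    rw [← fd.v00]
    exact hP'
  have hθ' : 1 < θ' := hP'.1
  obtain ⟨i, hi⟩ := hex
  -- the factor `i` has class `P`
  have hsplit : c * ∏ k, (G k).coeff 0 =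
      (G i).coeff 0 * (c * ∏ k ∈ Finset.univ.erase i, (G k).coeff 0) := by
    rw [← Finset.mul_prod_erase Finset.univ (fun k => (G k).coeff 0) (Finset.mem_univ i)]
    ring
  rw [hsplit] at hP2
  obtain ⟨hPi, hVr⟩ : ClassP θ' ((G i).coeff 0) ∧
      ClassV 1 (c * ∏ k ∈ Finset.univ.erase i, (G k).coeff 0) := by
    rcases e12 _ _ _ hP2 with h1 | ⟨h1, -⟩
    · exact h1
    · exfalso
      have h2 := (mv1 _ _ h1).2
      linarith
  have hne : ∏ k ∈ Finset.univ.erase i, (G k).coeff 0 ≠ 0 :=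
    Finset.prod_ne_zero_iff.mpr fun k _ => hG0 k
  have hMm : M c * M (∏ k ∈ Finset.univ.erase i, (G k).coeff 0) = 1 := by
    rw [← mm1 _ _ fd.c0 hne]
    exact (mv1 _ _ hVr).2
  have hc1 := mm2 c
  have hr1 := mm2 (∏ k ∈ Finset.univ.erase i, (G k).coeff 0)
  have hMc : M c = 1 := by
    nlinarith
  have hMr : M (∏ k ∈ Finset.univ.erase i, (G k).coeff 0) = 1 := by
    rw [hMc, one_mul] at hMm
    exact hMm
  have huni : ∀ k, 1 < M ((G k).coeff 0) → k = i := by
    intro k hk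
    by_contra hki
    have h2 := H56.one_lt_prod hM (Finset.univ.erase i) (fun k => (G k).coeff 0) hG0 k
      (Finset.mem_erase.mpr ⟨hki, Finset.mem_univ _⟩) hk
    linarith
  have hbig : big G = {i} := by
    ext k
    unfold big
    rw [Finset.mem_filter, Finset.mem_singleton]
    constructor
    · rintro ⟨-, hk⟩
      exact huni k hk
    · rintro rfl
      exact ⟨Finset.mem_univ _, hi⟩
  -- ranks
  have h1 := hG1 ℤ P L phi D S i0 eta h c n G fd
    (fun k b _ hpure _ _ => absurd hpure (hcl k).1)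
  rw [hbig, Finset.sum_singleton] at h1
  obtain ⟨-, K, hK, hKs, hKr, hKD⟩ := hcl i
  have hk0 : co phi i0 ≠ 0 := by
    intro h0
    have h2 := h
    rw [h0] at h2
    exact absurd h2 (by simp)
  have hker := (hRk L L).1 (co phi i0) hk0
  have hKle : Module.finrank ℤ K ≤ Module.finrank ℤ (Ker (co phi i0)) := by
    rw [hKr]
    exact (hRk (Ker (co phi i0)) (Ker (co phi i0))).2.2.1 _
  have hpos := rk_pos hRk (fd.wd i)
  refine ⟨hMc, P, K, inferInstance, inferInstance, inferInstance, inferInstance,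
    inferInstance, (phO phi S i0).comp (incl K), res K (G i), hKD, ?_, ?_, ?_, ?_⟩
  · rw [res_coeff]
    exact hPi
  · rw [hKr]
    exact hpos
  · omega
  · rw [hKr]
    exact h1

end Pool.Agent.B5.OF.H75
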